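import Pool.Agent.H832R3.VJ.Defs
import Pool.Agent.H891R2.MT.Defs

/-!
# Links which are not separated from the unknot by Vassiliev invariants of bounded order
-/

set_option autoImplicit false

namespace Pool.Agent.Y463.VC

open Pool.Agent.H891R2.Jones Pool.Agent.H891R2.MT Pool.Agent.H832R3.VJ

/-- For some directions of its strands, the closed diagram `U` is not separated from the unknot by the
Vassiliev invariants of order at most `d`. -/
def Hidden {P : Type} [Finite P] [DecidableEq P] (d : ℕ) (U : UDiagram P) : Prop :=
  ∃ D : Diagram P, Orients D U ∧ D.IsClosed ∧ ¬ Separated d ⟨P, inferInstance, D⟩ unknot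

/-- the bound on the order for diagrams with `k` twist sites and `c` crossings outside the sites -/
def ord (k c : ℕ) : ℕ := 2 ^ k * (6 * c + 8 * k + 1) + 4 * k

end Pool.Agent.Y463.VC
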