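import Pool.Agent.Y463.VC.Defs
import Pool.Agent.H891R2.VS.Site
import Pool.Agent.H832R3.VJ.Fin
import Pool.Agent.Y463.CD.Fin

/-!
# Vassiliev invariants of bounded order on twist families
-/

set_option autoImplicit false

namespace Pool.Agent.Y463.VC

open Finset LaurentPolynomial Pool.Agent.H891R2.Jones Pool.Agent.H891R2.MT Pool.Agent.H891R2.SI
  Pool.Agent.H832R3.VJ T4b
open Pool.Agent.Y463.CD (Small Coset Many pieces flat one braidSites)

/-- a diagram with the bracket of a member of a twist family: a normalised bracket different from `1` is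
seen by a Vassiliev invariant of bounded order -/
theorem site_gen {k : ℕ} (hk : 0 < k) (O : Sites k) (hO : O.Connected) (w : Fin k → ℤ) (X : Dia) 
    (hb : X.D.bracket = (O.fill w).std.bracket) (hne : X.D.fPoly ≠ 1) :
    Separated (2 ^ k * (6 * O.crossings.length + 8 * k + 1) + 4 * k) X unknot := by
  have hs := separated_of_ne (2 ^ k * (6 * O.crossings.length + 8 * k + 1) + 4 * k + 1)
    X unknot ((-T 2 - T (-2)) ^ k) (pow_ne_zero _ FinL.delta_ne) ?_ ?_
  · exact hs
  · rw [mul_sub]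
    refine (FinL.card_support_sub _ _).trans ?_
    have h1 : ((-T 2 - T (-2) : ℤ[T;T⁻¹]) ^ k * X.D.fPoly).coeff.support.card ≤ 
        2 ^ k * (6 * O.crossings.length + 8 * k + 1) := by
      have hf : ∃ ε m : ℤ, (-T 2 - T (-2) : ℤ[T;T⁻¹]) ^ k * X.D.fPoly = 
          C ε * T m * ((-T 2 - T (-2)) ^ k * T (- ∑ e, w e) * (O.fill w).std.bracket) := by
        refine ⟨if Even X.D.writhe then 1 else -1, -3 * X.D.writhe + ∑ e, w e, ?_⟩
        rw [← hb, T_add]
        have h1 : (T (∑ e, w e) : ℤ[T;T⁻¹]) * T (- ∑ e, w e) = 1 := by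
          rw [← T_add, add_neg_cancel, T_zero]
        unfold Diagram.fPoly
        by_cases hw : Even X.D.writhe
        · simp only [hw, if_true, map_one, one_mul]
          linear_combination (-(-T 2 - T (-2) : ℤ[T;T⁻¹]) ^ k * T (-3 * X.D.writhe) * X.D.bracket) * h1
        · simp only [hw, if_false, map_neg, map_one]
          linear_combination ((-T 2 - T (-2) : ℤ[T;T⁻¹]) ^ k * T (-3 * X.D.writhe) * X.D.bracket) * h1
      obtain ⟨ε, m, hf⟩ := hf
      rw [hf]
      refine (FinL.card_support_unit _ _ _).trans ?_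
      rw [Pool.Agent.H891R2.SI.S3 O hk w]
      refine (Pool.Agent.H891R2.VS.card_support_sum _ _ (6 * O.crossings.length + 8 * k + 1) ?_).trans ?_
      · intro R _
        have h4 : ((-1) ^ (nS w R).natAbs * T (-4 * nS w R) : ℤ[T;T⁻¹]) * Pool.Agent.H891R2.SI.Zp O R = 
            C ((-1) ^ (nS w R).natAbs) * T (-4 * nS w R) * Pool.Agent.H891R2.SI.Zp O R := by
          rw [map_pow, map_neg, map_one]
        rw [h4]
        refine (FinL.card_support_unit _ _ _).trans ?_
        have h5 := Pool.Agent.H891R2.VS.card_support_le (Pool.Agent.H891R2.SI.Zp O R) (-(3 * O.crossings.length + 4 * k)) 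
          (2 * (3 * O.crossings.length + 4 * k)) (by positivity) (fun j hj => by
            have := Pool.Agent.H891R2.SI.S4 O hO R j hj
            constructor
            · exact this.1
            · linarith [this.2])
        omega
      · simp
    have h2 : ((-T 2 - T (-2) : ℤ[T;T⁻¹]) ^ k * unknot.D.fPoly).coeff.support.card ≤ 4 * k + 1 := by
      rw [fPoly_unknot, mul_one]
      have h5 := Pool.Agent.H891R2.VS.card_support_le ((-T 2 - T (-2) : ℤ[T;T⁻¹]) ^ k) (-(k * 2)) (4 * k) (by positivity)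
        (fun j hj => by
          have := (T4b.SIn_d.pow k) j hj
          constructor
          · exact this.1
          · linarith [this.2])
      omega
    omega
  · rw [fPoly_unknot]; exact hne

/-- a hidden member has a normalised bracket `1` -/
theorem exists_one {k : ℕ} (hk : 0 < k) (O : Sites k) (hO : O.Connected) (w : Fin k → ℤ)
    (h : Hidden (ord k O.crossings.length) (O.fill w)) : 
    ∃ D : Diagram (O.P ⊕ Ribbon.Pt w), Orients D (O.fill w) ∧ D.fPoly = 1 := by
  obtain ⟨D, hD, _, hs⟩ := h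
  have : Nonempty (O.P ⊕ Ribbon.Pt w) := ⟨.inl (O.corner ⟨0, hk⟩ false false)⟩
  have hb : D.bracket = (O.fill w).std.bracket := Pool.Agent.H891R2.MT.T6.bracket_orients D (O.fill w) hD
  refine ⟨D, hD, ?_⟩
  by_contra hne
  exact hs (site_gen hk O hO w ⟨_, inferInstance, D⟩ hb hne)

/-- members of a twist family which are not separated from the unknot -/
theorem site {k : ℕ} (hk : 0 < k) (O : Sites k) (hO : O.Connected) (w : Fin k → ℤ)
    (h : Hidden (ord k O.crossings.length) (O.fill w)) : 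
    Small O 0 w ∧ det (O.fill w) ≠ 0 := by
  obtain ⟨D, hD, hf⟩ := exists_one hk O hO w h
  exact Pool.Agent.Y463.CD.det_of_unit O hk w D hD hf

/-- the cosets -/
theorem cosets {k : ℕ} (hk : 0 < k) (O : Sites k) (hO : O.Connected) : 
    ∃ W : Finset (Fin k → ℤ), 
      W.card ≤ (3 ^ k * (3 * O.crossings.length + 6 * k + 1) + 1) ^ k ∧ 
      (∀ w ∈ W, ∀ w' ∈ Coset O 0 w, ∀ D : Diagram (O.P ⊕ Ribbon.Pt w'), Orients D (O.fill w') → 
        Pool.Agent.H891R2.ZO.IsPow D.fPoly) ∧ 
      ∀ w, Hidden (ord k O.crossings.length) (O.fill w) → ∃ w' ∈ W, w ∈ Coset O 0 w' := by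
  classical
  obtain ⟨W, h1, h2, h3⟩ := Pool.Agent.Y463.CD.structure_thm O hk hO 0
  refine ⟨W.filter fun w' => ∃ w ∈ Coset O 0 w', Hidden (ord k O.crossings.length) (O.fill w), ?_, ?_, ?_⟩
  · refine (Finset.card_filter_le _ _).trans ?_
    simpa using h1
  · intro w' hw' w'' hw'' D'' hD''
    rw [Finset.mem_filter] at hw'
    obtain ⟨hW, w, hw, hh⟩ := hw'
    obtain ⟨D, hD, hf⟩ := exists_one hk O hO w hh
    obtain ⟨D', hD', _⟩ := h2 w' hW
    obtain ⟨u, hu, e1⟩ := Pool.Agent.Y463.CD.rigid_fPoly O hk hO 0 w' w (h2 w' hW) hw D' hD' D hD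
    obtain ⟨v, hv, e2⟩ := Pool.Agent.Y463.CD.rigid_fPoly O hk hO 0 w' w'' (h2 w' hW) hw'' D' hD' D'' hD''
    obtain ⟨u', hu', e3⟩ := hu.inv
    have e4 : D'.fPoly = u' := by
      calc D'.fPoly = (u' * u) * D'.fPoly := by rw [e3, one_mul]
        _ = u' * D.fPoly := by rw [e1, mul_assoc]
        _ = u' := by rw [hf, mul_one]
    rw [e2, e4]
    exact hv.mul hu'
  · intro w hw
    obtain ⟨w', hw', hc⟩ := (h3 w).1 (site hk O hO w hw).1
    exact ⟨w', Finset.mem_filter.2 ⟨hw', w, hc, hw⟩, hc⟩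

/-- plane graphs -/
theorem graph {k : ℕ} (hk : 0 < k) (Γ : Ribbon k) (hΓ : Γ.Planar) (w : Fin k → ℤ)
    (h : Hidden (ord k 0) (Γ.link w)) : SpanLE 0 (Γ.link w) ∧ det (Γ.link w) ≠ 0 := by
  obtain ⟨D, hD, hc, hs⟩ := h
  have n1 : Nonempty (Ribbon.Pt w) := ⟨⟨⟨0, hk⟩, 0, true⟩⟩
  have hb : D.bracket = (Γ.link w).std.bracket := Pool.Agent.H891R2.MT.T6.bracket_orients D _ hD
  have hf : D.fPoly = 1 := by
    by_contra hne
    exact hs (site_gen hk (Pool.Agent.Y463.CD.graphSites Γ) 
      (Pool.Agent.Y463.CD.graph_connected Γ hΓ.1) w ⟨_, inferInstance, D⟩ 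
      (hb.trans (Pool.Agent.Y463.CD.bracket_graph Γ hk w).symm) hne)
  constructor
  · refine ⟨D, hD, hc, 0, ?_⟩
    intro j hj
    rw [hf] at hj
    have := T4b.SIn.one j hj
    constructor <;> push_cast <;> linarith [this.1, this.2]
  · obtain ⟨u, hu, h1⟩ := Pool.Agent.Y463.CD.fPoly_pow D
    rw [hb, hf] at h1
    intro h0
    have h2 : Pool.Agent.Y463.CD.ev8 (Γ.link w).std.bracket = 0 := by
      rw [← norm_eq_zero]
      exact h0
    have h3 := congrArg Pool.Agent.Y463.CD.ev8 h1
    rw [map_one, map_mul, h2, mul_zero] at h3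
    exact one_ne_zero h3

end Pool.Agent.Y463.VC
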